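import Pool.Agent.Q294.Ce.Stm

/-!
The left tail of the number of successes before the `k`-th failure, and the explicit environment.
-/

set_option autoImplicit false

namespace Pool.Agent.Q177.Ce

open MeasureTheory ProbabilityTheory Filter Topology Pool.Agent.Q294.Ce
open _root_.Q294.Cookie (suc fai xx ll suc_add_fai suc_mono fai_succ fai_zero suc_zero suc_succ)

theorem int_bern (a : ℝ) (g : Bool → ℝ) :
    ∫ b, g b ∂(bern a) = cl a * g true + (1 - cl a) * g false := by
  unfold bern
  rw [integral_add_measure, integral_smul_measure, integral_smul_measure, integral_dirac,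
    integral_dirac, ENNReal.toReal_ofReal (cl_nonneg a),
    ENNReal.toReal_ofReal (sub_nonneg.2 (cl_le_one a)), smul_eq_mul, smul_eq_mul]
  · exact (integrable_dirac (by simp)).smul_measure ENNReal.ofReal_ne_top
  · exact (integrable_dirac (by simp)).smul_measure ENNReal.ofReal_ne_top

theorem fai_mono (f : ℕ → Bool) : Monotone (fai f) :=
  monotone_nat_of_le_succ fun j => by rw [fai_succ]; omega

/-- the centred increments -/
noncomputable def XX (p : ℕ → ℝ) (i : ℕ) (b : Bool) : ℝ := (if b then -1 else 1) + (2 * p i - 1)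

theorem sum_XX (p : ℕ → ℝ) (f : ℕ → Bool) (n : ℕ) :
    ∑ i ∈ Finset.range n, XX p i (f i) = (fai f n : ℝ) - suc f n + dr p n := by
  unfold dr
  induction n with
  | zero => simp [fai_zero, suc_zero]
  | succ n ih =>
    rw [Finset.sum_range_succ, ih, Finset.sum_range_succ, fai_succ, suc_succ]
    unfold XX
    rcases hf : f n with _ | _
    · simp; ring
    · simp; ring

theorem sub_XX (p : ℕ → ℝ) (κ Δ : ℝ) (hp : Good p κ Δ) (i : ℕ) :
    HasSubgaussianMGF (fun f : ℕ → Bool => XX p i (f i)) 1 (coins p) := by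
  have h1 : HasSubgaussianMGF (fun f : ℕ → Bool => XX p i (f i))
      ((‖(1 + (2 * p i - 1)) - (-1 + (2 * p i - 1))‖₊ / 2) ^ 2) (coins p) := by
    apply hasSubgaussianMGF_of_mem_Icc_of_integral_eq_zero
    · apply Measurable.aemeasurable
      exact (measurable_of_finite (XX p i)).comp (measurable_pi_apply i)
    · refine ae_of_all _ fun f => ?_
      unfold XX
      rw [Set.mem_Icc]
      split_ifs
      · constructor <;> linarith
      · constructor <;> linarith
    · have h2 : ∫ f, XX p i (f i) ∂(coins p) = ∫ b, XX p i b ∂(bern (p i)) := by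
        unfold coins
        rw [← Measure.infinitePi_map_eval (fun j => bern (p j)) i]
        rw [integral_map (measurable_pi_apply i).aemeasurable
          (measurable_of_finite (XX p i)).aestronglyMeasurable]
      have hc : cl (p i) = p i := cl_eq (by linarith [hp.pos, hp.lo i]) (by linarith [hp.pos, hp.hi i])
      rw [h2, int_bern, hc]
      unfold XX
      simp
      ring
  have h2 : ((‖(1 + (2 * p i - 1)) - (-1 + (2 * p i - 1))‖₊ / 2) ^ 2) = 1 := by
    rw [show (1 + (2 * p i - 1)) - (-1 + (2 * p i - 1)) = (2 : ℝ) by ring]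
    simp
  rw [h2] at h1
  exact h1

theorem left : S_left := by
  intro p κ Δ hp k a hk
  by_cases hak : a ≤ k
  swap
  · have h0 : {f | (∀ m, ∃ j, m ≤ fai f j) ∧ VV k f + a ≤ k} = ∅ := by
      ext f
      simp only [Set.mem_ofPred_eq, Set.mem_empty_iff_false, iff_false, not_and]
      intro _
      omega
    rw [h0, measureReal_empty]
    exact (Real.exp_pos _).le
  have hind : iIndepFun (fun (i : ℕ) (f : ℕ → Bool) => XX p i (f i)) (coins p) :=
    iIndepFun_infinitePi (X := XX p) (fun i => measurable_of_finite _)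
  have h1 := HasSubgaussianMGF.measure_sum_range_ge_le_of_iIndepFun hind (n := 2 * k - a)
    (fun i _ => sub_XX p κ Δ hp i) (Nat.cast_nonneg (α := ℝ) a)
  have h2 : (coins p).real {f | (∀ m, ∃ j, m ≤ fai f j) ∧ VV k f + a ≤ k} ≤
      (coins p).real {f | (a : ℝ) ≤ ∑ i ∈ Finset.range (2 * k - a), XX p i (f i)} := by
    apply measureReal_mono
    · rintro f ⟨hf, hV⟩
      rw [Set.mem_ofPred_eq, sum_XX]
      have hne : {j | k ≤ fai f j}.Nonempty := hf k
      have h3 : k ≤ fai f (NN k f) := Nat.sInf_mem hne
      have h4 := suc_add_fai f (NN k f)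
      have h5 : NN k f ≤ 2 * k - a := by
        unfold VV at hV
        omega
      have h6 : k ≤ fai f (2 * k - a) := h3.trans (fai_mono f h5)
      have h7 := suc_add_fai f (2 * k - a)
      have h8 : suc f (2 * k - a) + a ≤ fai f (2 * k - a) := by omega
      have h9 : (suc f (2 * k - a) : ℝ) + a ≤ fai f (2 * k - a) := by exact_mod_cast h8
      linarith [hp.dr_nonneg (2 * k - a)]
    · exact measure_ne_top _ _
  refine (h2.trans h1).trans ?_
  rw [Real.exp_le_exp]
  have hn : (0 : ℝ) < ((2 * k - a : ℕ) : ℝ) := by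
    have : 0 < 2 * k - a := by omega
    exact_mod_cast this
  have hn2 : ((2 * k - a : ℕ) : ℝ) ≤ 2 * k := by
    have : 2 * k - a ≤ 2 * k := Nat.sub_le _ _
    exact_mod_cast this
  have hk0 : (0 : ℝ) < k := by exact_mod_cast hk
  rw [neg_div, neg_div, neg_le_neg_iff, NNReal.coe_one, mul_one]
  apply div_le_div_of_nonneg_left (sq_nonneg _) (by linarith)
  linarith

/-! ### the environment -/

theorem cc_pos (n : ℕ) : 0 < cc n := by
  unfold cc
  have : 0 ≤ Real.log (n + 1) := Real.log_nonneg (by have := Nat.cast_nonneg (α := ℝ) n; linarith)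
  positivity

theorem cc_anti (n : ℕ) : cc (n + 1) ≤ cc n := by
  unfold cc
  have h0 : (0 : ℝ) ≤ n := Nat.cast_nonneg n
  have h1 : 0 ≤ Real.log (n + 1) := Real.log_nonneg (by linarith)
  apply one_div_le_one_div_of_le
  · positivity
  · apply Real.sqrt_le_sqrt
    have h2 : Real.log ((n : ℝ) + 1) ≤ Real.log (((n + 1 : ℕ) : ℝ) + 1) := by
      apply Real.log_le_log
      · linarith
      · push_cast
        linarith
    linarith

theorem cc_three : cc 3 ≤ 4 / 5 := by
  unfold cc
  have h1 : (1 : ℝ) ≤ Real.log (((3 : ℕ) : ℝ) + 1) := by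
    have h2 : Real.exp 1 ≤ 4 := by
      have := Real.exp_one_lt_d9
      linarith
    rw [Real.le_log_iff_exp_le (by norm_num)]
    norm_num
    exact h2
  generalize Real.log (((3 : ℕ) : ℝ) + 1) = L at h1 ⊢
  have h2 : (5 / 4 : ℝ) ≤ √(1 + L) := by
    apply Real.le_sqrt_of_sq_le
    linarith
  generalize √(1 + L) = t at h2 ⊢
  rw [div_le_iff₀ (by linarith)]
  linarith

theorem dd_lt {i : ℕ} (h : i < 3) : 2 * pp i - 1 = (1 + cc 3) / 3 := by
  unfold pp
  rw [if_pos h]
  ring

theorem dd_ge {i : ℕ} (h : 3 ≤ i) : 2 * pp i - 1 = cc (i + 1) - cc i := by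
  unfold pp
  rw [if_neg (by omega)]
  ring

theorem dr_le_three {n : ℕ} (h : n ≤ 3) : dr pp n = n * ((1 + cc 3) / 3) := by
  unfold dr
  rw [Finset.sum_congr rfl fun i hi => dd_lt (lt_of_lt_of_le (Finset.mem_range.mp hi) h)]
  rw [Finset.sum_const, Finset.card_range, nsmul_eq_mul]

theorem dr_ge_three {n : ℕ} (h : 3 ≤ n) : dr pp n = 1 + cc n := by
  induction n, h using Nat.le_induction with
  | base =>
    rw [dr_le_three le_rfl]
    push_cast
    ring
  | succ n hn ih =>
    unfold dr at ih ⊢
    rw [Finset.sum_range_succ, ih, dd_ge hn]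
    ring

theorem sq_ge_three {n : ℕ} (h : 3 ≤ n) :
    ∑ i ∈ Finset.range n, (2 * pp i - 1) ^ 2 ≤ 2 + (cc 3 - cc n) := by
  have h3 := cc_three
  have h0 := cc_pos 3
  induction n, h using Nat.le_induction with
  | base =>
    rw [Finset.sum_congr rfl fun i hi => by rw [dd_lt (Finset.mem_range.mp hi)]]
    rw [Finset.sum_const, Finset.card_range, nsmul_eq_mul]
    push_cast
    nlinarith
  | succ n hn ih =>
    rw [Finset.sum_range_succ, dd_ge hn]
    have h4 := cc_anti n
    have h5 : cc n ≤ 1 := by
      unfold cc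
      have h6 : 0 ≤ Real.log (n + 1) :=
        Real.log_nonneg (by have := Nat.cast_nonneg (α := ℝ) n; linarith)
      have h7 : (1 : ℝ) ≤ √(1 + Real.log (n + 1)) := by
        apply Real.le_sqrt_of_sq_le
        linarith
      rw [div_le_iff₀ (by linarith)]
      linarith
    have h6 := cc_pos (n + 1)
    nlinarith

theorem env : S_env := by
  have h3 := cc_three
  have h0 := cc_pos 3
  have hle : ∀ n, 3 ≤ n → cc n ≤ cc 3 := by
    intro n hn
    induction n, hn using Nat.le_induction with
    | base => exact le_rfl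
    | succ n hn ih => exact (cc_anti n).trans ih
  refine ⟨⟨by norm_num, fun j => ?_, fun j => ?_, fun n => ?_, fun n => ?_, fun n => ?_⟩,
    fun n hn => dr_ge_three hn⟩
  · rcases lt_or_ge j 3 with h | h
    · have := dd_lt h
      linarith
    · have := dd_ge h
      have h4 := cc_pos (j + 1)
      have h5 := hle j h
      linarith
  · rcases lt_or_ge j 3 with h | h
    · have := dd_lt h
      linarith
    · have := dd_ge h
      have h4 := cc_anti j
      linarith
  · rcases le_total n 3 with h | h
    · rw [dr_le_three h]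
      positivity
    · rw [dr_ge_three h]
      linarith [cc_pos n]
  · rcases le_total n 3 with h | h
    · rw [dr_le_three h]
      have h4 : (n : ℝ) ≤ 3 := by exact_mod_cast h
      nlinarith
    · rw [dr_ge_three h]
      linarith [hle n h]
  · have h4 := sq_ge_three (n := max n 3) (le_max_right _ _)
    have h5 : ∑ i ∈ Finset.range n, (2 * pp i - 1) ^ 2 ≤
        ∑ i ∈ Finset.range (max n 3), (2 * pp i - 1) ^ 2 := by
      apply Finset.sum_le_sum_of_subset_of_nonneg
      · exact Finset.range_mono (le_max_left _ _)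
      · intro i _ _
        positivity
    linarith [cc_pos (max n 3)]

end Pool.Agent.Q177.Ce
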